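import Pool.Agent.H477.O.Stm

set_option autoImplicit false

/-!
# ONZ: a primitive of a nearly exponential function does not vanish
-/

open Complex Filter Topology Metric Set MeasureTheory

namespace Pool.Agent.H195.O

open Pool.Agent.H477.O

theorem real_shift {F : ℂ → ℂ} (hF : Differentiable ℂ F) (z : ℂ) (r : ℝ) :
    HasDerivAt (fun x : ℝ => F (z - x)) (-(deriv F (z - r))) r := by
  have h1 : HasDerivAt F (deriv F (z - r)) (z - r) := (hF _).hasDerivAt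
  have h2 : HasDerivAt (fun w : ℂ => F (z - w)) (-(deriv F (z - r))) (r : ℂ) := by
    have h3 : HasDerivAt (fun w : ℂ => z - w) (-1) (r : ℂ) := by
      simpa using (hasDerivAt_id (r : ℂ)).const_sub z
    have h4 := h1.comp (r : ℂ) h3
    rw [mul_neg, mul_one] at h4
    exact h4
  exact h2.comp_ofReal

theorem exp_real (ℓ r : ℝ) :
    HasDerivAt (fun x : ℝ => Complex.exp ((ℓ * x : ℝ) : ℂ)) (ℓ * Complex.exp ((ℓ * r : ℝ) : ℂ)) r := by
  have h1 : HasDerivAt (fun x : ℝ => Real.exp (ℓ * x)) (Real.exp (ℓ * r) * ℓ) r := by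
    have := ((hasDerivAt_id r).const_mul ℓ).exp
    simpa using this
  have h2 := h1.ofReal_comp
  simp only [Complex.ofReal_exp, Complex.ofReal_mul] at h2 ⊢
  rw [mul_comm]
  exact h2

/-- the size of the deviation -/
theorem dev (g : ℂ → ℂ) (hg : Differentiable ℂ g) (δ ℓ : ℝ) (hℓ : 0 < ℓ) (z : ℂ)
    (h : ∀ r : ℝ, 0 ≤ r → r ≤ δ → g (z - r) ≠ 0 ∧ ‖logDeriv g (z - r) - ℓ‖ ≤ ℓ / 8)
    (hδ : 0 ≤ δ) : ∀ r ∈ Icc (0 : ℝ) δ,
    ‖Complex.exp ((ℓ * r : ℝ) : ℂ) * g (z - r) / g z - 1‖ ≤ Real.exp (ℓ / 8 * r) - 1 := by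
  have hz : g z ≠ 0 := by
    have := (h 0 le_rfl hδ).1
    simpa using this
  have hd : ∀ r : ℝ, HasDerivAt (fun r : ℝ => Complex.exp ((ℓ * r : ℝ) : ℂ) * g (z - r) / g z - 1)
      ((ℓ * Complex.exp ((ℓ * r : ℝ) : ℂ) * g (z - r) +
        Complex.exp ((ℓ * r : ℝ) : ℂ) * (-(deriv g (z - r)))) / g z) r := by
    intro r
    exact (((exp_real ℓ r).mul (real_shift hg z r)).div_const (g z)).sub_const 1
  intro r hr
  have key := norm_le_gronwallBound_of_norm_deriv_right_le (E := ℂ)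
    (f := fun r : ℝ => Complex.exp ((ℓ * r : ℝ) : ℂ) * g (z - r) / g z - 1)
    (f' := fun r : ℝ => (ℓ * Complex.exp ((ℓ * r : ℝ) : ℂ) * g (z - r) +
        Complex.exp ((ℓ * r : ℝ) : ℂ) * (-(deriv g (z - r)))) / g z)
    (δ := 0) (K := ℓ / 8) (ε := ℓ / 8) (a := 0) (b := δ)
    (fun x _ => (hd x).continuousAt.continuousWithinAt)
    (fun x _ => (hd x).hasDerivWithinAt) (by simp [hz]) (by
      intro x hx
      obtain ⟨h1, h2⟩ := h x hx.1 hx.2.le
      have h3 : (ℓ * Complex.exp ((ℓ * x : ℝ) : ℂ) * g (z - x) +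
          Complex.exp ((ℓ * x : ℝ) : ℂ) * (-(deriv g (z - x)))) / g z =
          -((logDeriv g (z - x) - ℓ) * (Complex.exp ((ℓ * x : ℝ) : ℂ) * g (z - x) / g z)) := by
        rw [logDeriv_apply]
        field_simp
        ring
      rw [h3, norm_neg, norm_mul]
      have h4 : ‖Complex.exp ((ℓ * x : ℝ) : ℂ) * g (z - x) / g z‖ ≤
          ‖Complex.exp ((ℓ * x : ℝ) : ℂ) * g (z - x) / g z - 1‖ + 1 := by
        have := norm_add_le (Complex.exp ((ℓ * x : ℝ) : ℂ) * g (z - x) / g z - 1) 1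
        rw [sub_add_cancel, norm_one] at this
        exact this
      calc ‖logDeriv g (z - x) - ℓ‖ * ‖Complex.exp ((ℓ * x : ℝ) : ℂ) * g (z - x) / g z‖ ≤
          ℓ / 8 * (‖Complex.exp ((ℓ * x : ℝ) : ℂ) * g (z - x) / g z - 1‖ + 1) :=
            mul_le_mul h2 h4 (norm_nonneg _) (by positivity)
        _ = ℓ / 8 * ‖Complex.exp ((ℓ * x : ℝ) : ℂ) * g (z - x) / g z - 1‖ + ℓ / 8 := by ring)
    r hr
  rw [gronwallBound_of_K_ne_0 (by positivity)] at key
  simp only [zero_mul, zero_add, sub_zero] at key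
  rw [div_self (by positivity), one_mul] at key
  exact key

theorem prim (G : ℂ → ℂ) (hG : Differentiable ℂ G) (δ ℓ : ℝ) (hℓ : 0 < ℓ) (z : ℂ)
    (h : ∀ r : ℝ, 0 ≤ r → r ≤ δ →
      deriv G (z - r) ≠ 0 ∧ ‖logDeriv (deriv G) (z - r) - ℓ‖ ≤ ℓ / 8)
    (hδ : 0 ≤ δ) :
    ‖(G z - G (z - δ)) / deriv G z - (((1 - Real.exp (-(ℓ * δ))) / ℓ : ℝ) : ℂ)‖ ≤
      8 / (7 * ℓ) * (1 - Real.exp (-(7 * ℓ / 8 * δ))) - (1 - Real.exp (-(ℓ * δ))) / ℓ := by
  have hg : Differentiable ℂ (deriv G) := by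
    have := (hG.differentiableOn (s := univ)).deriv isOpen_univ
    rwa [differentiableOn_univ] at this
  have hz : deriv G z ≠ 0 := by
    have := (h 0 le_rfl hδ).1
    simpa using this
  have hdev := dev (deriv G) hg δ ℓ hℓ z h hδ
  have e1 : ∀ c x : ℝ, HasDerivAt (fun x : ℝ => Real.exp (-(c * x))) (-(c * Real.exp (-(c * x)))) x := by
    intro c x
    have := (((hasDerivAt_id x).const_mul c).neg).exp
    simp only [id_eq, mul_one] at this
    have h2 : -(c * Real.exp (-(c * x))) = Real.exp (-(c * x)) * -c := by ring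
    rw [h2]
    exact this
  have e2 : ∀ x : ℝ, HasDerivAt (fun x : ℝ => (((1 - Real.exp (-(ℓ * x))) / ℓ : ℝ) : ℂ))
      ((Real.exp (-(ℓ * x)) : ℝ) : ℂ) x := by
    intro x
    have h1 := (((e1 ℓ x).const_sub 1).div_const ℓ).ofReal_comp
    have h2 : -(-(ℓ * Real.exp (-(ℓ * x)))) / ℓ = Real.exp (-(ℓ * x)) := by
      field_simp
    rw [h2] at h1
    exact h1
  have hd : ∀ x : ℝ, HasDerivAt (fun x : ℝ => (G z - G (z - x)) / deriv G z -
      (((1 - Real.exp (-(ℓ * x))) / ℓ : ℝ) : ℂ))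
      (deriv G (z - x) / deriv G z - ((Real.exp (-(ℓ * x)) : ℝ) : ℂ)) x := by
    intro x
    have h1 := ((((real_shift hG z x).const_sub (G z)).div_const (deriv G z))).sub (e2 x)
    simp only [neg_neg] at h1
    exact h1
  have hB : ∀ x : ℝ, HasDerivAt (fun x : ℝ => 8 / (7 * ℓ) * (1 - Real.exp (-(7 * ℓ / 8 * x))) -
      (1 - Real.exp (-(ℓ * x))) / ℓ)
      (Real.exp (-(7 * ℓ / 8 * x)) - Real.exp (-(ℓ * x))) x := by
    intro x
    have h1 := (((e1 (7 * ℓ / 8) x).const_sub 1).const_mul (8 / (7 * ℓ))).sub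
      (((e1 ℓ x).const_sub 1).div_const ℓ)
    have h2 : 8 / (7 * ℓ) * -(-(7 * ℓ / 8 * Real.exp (-(7 * ℓ / 8 * x)))) -
        -(-(ℓ * Real.exp (-(ℓ * x)))) / ℓ = Real.exp (-(7 * ℓ / 8 * x)) - Real.exp (-(ℓ * x)) := by
      field_simp
    rw [h2] at h1
    exact h1
  have key := image_norm_le_of_norm_deriv_right_le_deriv_boundary (E := ℂ)
    (f := fun x : ℝ => (G z - G (z - x)) / deriv G z -
      (((1 - Real.exp (-(ℓ * x))) / ℓ : ℝ) : ℂ))
    (f' := fun x : ℝ => deriv G (z - x) / deriv G z - ((Real.exp (-(ℓ * x)) : ℝ) : ℂ))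
    (a := 0) (b := δ) (fun x _ => (hd x).continuousAt.continuousWithinAt)
    (fun x _ => (hd x).hasDerivWithinAt)
    (B := fun x : ℝ => 8 / (7 * ℓ) * (1 - Real.exp (-(7 * ℓ / 8 * x))) -
      (1 - Real.exp (-(ℓ * x))) / ℓ)
    (B' := fun x : ℝ => Real.exp (-(7 * ℓ / 8 * x)) - Real.exp (-(ℓ * x)))
    (by simp) hB (by
      intro x hx
      have h1 := hdev x ⟨hx.1, hx.2.le⟩
      have h2 : deriv G (z - x) / deriv G z - ((Real.exp (-(ℓ * x)) : ℝ) : ℂ) =
          ((Real.exp (-(ℓ * x)) : ℝ) : ℂ) *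
            (Complex.exp ((ℓ * x : ℝ) : ℂ) * deriv G (z - x) / deriv G z - 1) := by
        have h3 : ((Real.exp (-(ℓ * x)) : ℝ) : ℂ) * Complex.exp ((ℓ * x : ℝ) : ℂ) = 1 := by
          rw [← Complex.ofReal_exp, ← Complex.ofReal_mul, ← Real.exp_add]
          simp
        rw [mul_sub, mul_one, mul_div_assoc, ← mul_assoc, h3, one_mul]
      rw [h2, norm_mul, Complex.norm_real, Real.norm_of_nonneg (Real.exp_pos _).le]
      calc Real.exp (-(ℓ * x)) *
          ‖Complex.exp ((ℓ * x : ℝ) : ℂ) * deriv G (z - x) / deriv G z - 1‖ ≤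
          Real.exp (-(ℓ * x)) * (Real.exp (ℓ / 8 * x) - 1) :=
            mul_le_mul_of_nonneg_left h1 (Real.exp_pos _).le
        _ = Real.exp (-(7 * ℓ / 8 * x)) - Real.exp (-(ℓ * x)) := by
            rw [mul_sub, mul_one, ← Real.exp_add]
            congr 2
            ring)
  exact key ⟨hδ, le_rfl⟩

theorem ONZ_proof : S_ONZ := by
  intro δ hδ hδ1
  refine ⟨64 / δ ^ 2, ?_, ?_⟩
  · rw [le_div_iff₀ (by positivity)]
    nlinarith
  intro G M ℓ u z hG hM hℓ h hlow hup hz0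
  have hℓδ : 64 ≤ ℓ * δ ^ 2 := by
    rw [div_le_iff₀ (by positivity)] at hℓ
    exact hℓ
  have hℓ0 : 0 < ℓ := by
    by_contra hcon
    push Not at hcon
    have : ℓ * δ ^ 2 ≤ 0 := mul_nonpos_of_nonpos_of_nonneg hcon (by positivity)
    linarith
  have hℓδ1 : 64 ≤ ℓ * δ := by nlinarith [mul_pos hℓ0 hδ]
  have key := prim G hG δ ℓ hℓ0 z h hδ.le
  rw [hz0, zero_sub] at key
  have hz : deriv G z ≠ 0 := by
    have := (h 0 le_rfl hδ.le).1
    simpa using this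
  have hzn : 0 < ‖deriv G z‖ := norm_pos_iff.2 hz
  set E : ℝ := Real.exp (-(ℓ * δ)) with hE
  set E' : ℝ := Real.exp (-(7 * ℓ / 8 * δ)) with hE'
  have hEE' : E ≤ E' := by
    rw [hE, hE']
    apply Real.exp_le_exp.2
    nlinarith
  have hE0 : 0 < E := Real.exp_pos _
  have hE'0 : 0 < E' := Real.exp_pos _
  have hEh : E ≤ 1 / 2 := by
    rw [hE, Real.exp_neg, inv_eq_one_div]
    apply one_div_le_one_div_of_le (by norm_num)
    have := Real.add_one_le_exp (ℓ * δ)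
    linarith
  -- the difference
  have h1 : (1 - E) / ℓ ≤ ‖-G (z - δ) / deriv G z‖ +
      (8 / (7 * ℓ) * (1 - E') - (1 - E) / ℓ) := by
    have h2 : ‖(((1 - E) / ℓ : ℝ) : ℂ)‖ ≤ ‖-G (z - δ) / deriv G z‖ +
        ‖-G (z - δ) / deriv G z - (((1 - E) / ℓ : ℝ) : ℂ)‖ := by
      have := norm_sub_le (-G (z - δ) / deriv G z)
        (-G (z - δ) / deriv G z - (((1 - E) / ℓ : ℝ) : ℂ))
      rw [sub_sub_cancel] at this
      exact this
    rw [Complex.norm_real, Real.norm_of_nonneg (div_nonneg (by linarith) hℓ0.le)] at h2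
    linarith
  have h3 : 1 / (4 * ℓ) ≤ ‖-G (z - δ) / deriv G z‖ := by
    have h4 : 2 * ((1 - E) / ℓ) - 8 / (7 * ℓ) * (1 - E') ≤ ‖-G (z - δ) / deriv G z‖ := by
      linarith
    refine le_trans ?_ h4
    have h5 : 2 * ((1 - E) / ℓ) - 8 / (7 * ℓ) * (1 - E') - 1 / (4 * ℓ) =
        (2 * (1 - E) - 8 / 7 * (1 - E') - 1 / 4) / ℓ := by
      field_simp
    have h6 : 0 ≤ (2 * (1 - E) - 8 / 7 * (1 - E') - 1 / 4) / ℓ := by
      apply div_nonneg _ hℓ0.le
      have h7 : E ≤ 1 / 64 := by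
        rw [hE, Real.exp_neg, inv_eq_one_div]
        apply one_div_le_one_div_of_le (by norm_num)
        have := Real.add_one_le_exp (ℓ * δ)
        linarith
      nlinarith
    linarith
  rw [norm_div, norm_neg, le_div_iff₀ hzn] at h3
  -- compare
  have h8 : M * Real.exp (ℓ * (u - δ / 4)) / (4 * ℓ) ≤ M * Real.exp (ℓ * (u - δ + δ / 4)) := by
    refine le_trans ?_ hup
    refine le_trans ?_ h3
    rw [div_eq_inv_mul, ← one_div]
    exact mul_le_mul_of_nonneg_left hlow (by positivity)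
  have h9 : Real.exp (ℓ * (u - δ / 4)) = Real.exp (ℓ * (u - δ + δ / 4)) * Real.exp (ℓ * δ / 2) := by
    rw [← Real.exp_add]
    congr 1
    ring
  rw [h9, div_le_iff₀ (by positivity)] at h8
  have h10 : Real.exp (ℓ * δ / 2) ≤ 4 * ℓ := by
    have h11 : 0 < M * Real.exp (ℓ * (u - δ + δ / 4)) := mul_pos hM (Real.exp_pos _)
    have h12 : M * Real.exp (ℓ * (u - δ + δ / 4)) * Real.exp (ℓ * δ / 2) ≤
        M * Real.exp (ℓ * (u - δ + δ / 4)) * (4 * ℓ) := by linarith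
    exact le_of_mul_le_mul_left h12 h11
  have h13 := Real.quadratic_le_exp_of_nonneg (x := ℓ * δ / 2) (by positivity)
  nlinarith

end Pool.Agent.H195.O
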